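import Mathlib
import Pool.Agent.U289.NY.Mult

/-!
# Many chains of both kinds at once, near almost all times

For `δ = ±1` and `a ≥ 2` let `S_δ z = a z - (a - 1) δ`; for `a = 2` the sequences of the iterates of `S_{-1} z = 2 z + 1`
and of `S_1 z = 2 z - 1` are the Cunningham chains of the first and of the second kind. We consider, for a variable
integer `m`, the chains which start at `A_e m + δ_e`, `e = 0, 1, 2, …`, of the kind `δ_e`; their members are
`S_{δ_e}^i (A_e m + δ_e) = a ^ i A_e m + δ_e`. Here the `A_e ≥ 1` are any integers not divisible by `a ^ q`, `q ≥ 1`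
(`a = 2`, `q = 1`: odd numbers), and the `δ_e = ±1` are arbitrary: chains of both kinds may occur. Let `τ_0, τ_1, …` be
any distinct natural numbers, `W_0, W_1, …` any finite nonempty sets of indices `e`, and `η > 0`. There is a set `𝒮` of
indices with `|𝒮 ∩ W_t| ≥ (5/18 - η) |W_t|` for infinitely many `t`, such that the following holds for EVERY finite
subset `I` of `𝒮`, `0 < ε < 1` and arbitrary integers `k_j`, `m_j ≥ 1`.

There are numbers `C_0, C_1, …` such that for ALL natural numbers `v_{j,i}`, `i < k_j`, and ALL finitely supported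
probability measures `μ_0, μ_1, …` on the natural numbers there are sets `E_e` of natural numbers (times), one for
each chain `e ∈ I`, and `J_0 < J_1 < …` with the following two properties.

(1) For infinitely many `t` the set of the `j`, for which at least `(1 - ε) k_j` of the intervals
`[v_{j,i}, v_{j,i} + C_j]` contain at least `m_j` elements of EVERY set `E_e`, `e ∈ I`, has `μ_t`-measure at least
`1 - ε`.

(2) The elements of the sets `E_e` can be combined freely: for all `k`, `c` and `i_1 < ⋯ < i_k` with `k, c ≤ i_1`,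
for every length `l` and every `B` there are `C` and arbitrarily large `N`, the same for ALL choices of
`e_1, …, e_k ∈ I` and `s_u ∈ E_{e_u}`, `s_u ≤ c`, and for all `J ⊆ {1, …, k}`, such that for some
`1 ≤ d ≤ (log N) ^ C` there are at least `N / (log N) ^ C` integers `n ≤ N` with: for each
`m = n, n + d, …, n + (l - 1) d`, among the members of the chains `e_u` at the times `q (τ_{J_{i_u}} + s_u)` exactly
those with `u ∈ J` are prime, and NO number `y m ± 1`, `1 ≤ y ≤ B`, is prime, apart (possibly) from the members of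
the given chains at times divisible by `q`.

So, for `a = q = 2`, there are many `m` for which prescribed members of many chains of both kinds are primes, each of
them a chain of exact length one, and all the other primes `y m ± 1`, `y ≤ B`, are members of the given chains at even
times as well. The question asks for ONE chain whose members at all the times are prime; here the times may be
delayed by bounded amounts, near almost any given times, and this for MANY chains simultaneously: more than a
quarter of infinitely many of any given finite sets of chains. (The numbers `C_j` depend on `I` but not on the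
`v_{j,i}` and the measures.)

New compared with the starting files and my hand-ins: `MP_77cbc6_nt.FreeTimes` (mine) is about ONE chain; here
bounded delays cannot lead from one chain to another. For a set of chains which is not large one cannot exclude by
these methods that some of them never have primes at the same time; the theorem finds one large set of chains
which have primes together near almost all times. The sibling `MP_c77da8_nt.TypedPositions` (mine, same engine) has the
roles exchanged: many positions in the chains, near almost all starting points.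

Proof. Labels are pairs (time, chain); a set of labels is free if the iterated limit of the statement (2) along an
ultrafilter is true; the substitution `a ^ (q c) m` for `m` preserves free sets and chains. By the coloured
Maynard-Tao theorem (`Pool.Agent.Y827.HN.patR`, starting files) free sets contain, for any weights, labels of the
proportion `5/18`; so for at least `η` of the weight the set of the chains which occur has the proportion
`5/18 - η`. If for each of the finitely many large sets `I` of chains the theorem with some proportion `ρ < 1` were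
false for all `(C_j)`, bad configurations for all the `I` could be placed inside each other, again and again, until
every free set contains all the chains of some `I` with weight less than `η` (`Pool.Agent.U289.NY.nest`).
Infinitely many windows of chains and infinitely many measures: Pták's lemma on convex means
(`Pool.Agent.Helper639.Tk.ptak`, starting files).
-/

set_option autoImplicit false

namespace Pool.Agent.Results.MP_c183ae_nt.ManyStarts

open Filter Finset

/-- the map `z ↦ a z - (a - 1) δ`; for `a = 2` it is `2 z + 1` (first kind) if `δ = -1`, and `2 z - 1` (second kind) if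
`δ = 1` -/
def S (a : ℕ) (δ : ℤ) (z : ℤ) : ℤ := a * z - (a - 1) * δ

/-- among the members of the chains `e = (f u).1` (starting at `A_e m + δ_e`, of the kind `δ_e`) at the times
`(f u).2` exactly those with `u ∈ J` are prime, and no `y m + ε`, `1 ≤ y ≤ B`, `ε = ±1`, is prime, unless `y` and `ε`
are `a ^ (q i) A_e` and `δ_e` for some `e` and `i` (a member at a time divisible by `q` of one of the chains) -/
def Pattern (a q : ℕ) (A : ℕ → ℕ) (δ : ℕ → ℤ) (B : ℕ) {k : ℕ} (f : Fin k → ℕ × ℕ) (J : Finset (Fin k))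
    (m : ℕ) : Prop :=
  (∀ u : Fin k, ((S a (δ (f u).1))^[(f u).2] ((A (f u).1 : ℤ) * m + δ (f u).1)).toNat.Prime ↔ u ∈ J) ∧
    ∀ (y : ℕ) (ε : ℤ), 1 ≤ y → y ≤ B → (ε = 1 ∨ ε = -1) → (∀ e i : ℕ, ¬ (y = a ^ (q * i) * A e ∧ ε = δ e)) →
      ¬ ((y : ℤ) * m + ε).toNat.Prime

open Classical in
/-- the number of the `1 ≤ n ≤ N` such that all of `n, n + d, …, n + (l - 1) d` have the pattern -/
noncomputable def count (a q : ℕ) (A : ℕ → ℕ) (δ : ℕ → ℤ) (B : ℕ) {k : ℕ} (f : Fin k → ℕ × ℕ) (J : Finset (Fin k))
    (l d N : ℕ) : ℕ :=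
  ((Icc 1 N).filter (fun n : ℕ => ∀ i < l, Pattern a q A δ B f J (n + i * d))).card

/-- all patterns occur, at arbitrarily large common scales `N`, for all the vectors in `𝓕` of pairs (chain, time) -/
def AllGood (a q : ℕ) (A : ℕ → ℕ) (δ : ℕ → ℤ) {k : ℕ} (𝓕 : Set (Fin k → ℕ × ℕ)) : Prop :=
  ∀ l B : ℕ, ∃ C : ℕ, ∃ᶠ N : ℕ in atTop, ∀ f ∈ 𝓕, ∀ J : Finset (Fin k),
    ∃ d : ℕ, 1 ≤ d ∧ (d : ℝ) ≤ (Real.log N) ^ C ∧
      (N : ℝ) / (Real.log N) ^ C ≤ (count a q A δ B f J l d N : ℝ)

/-- the property `Q` holds for at least `(1 - ε) k` of the numbers `i < k` -/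
def Most (ε : ℝ) (k : ℕ) (Q : ℕ → Prop) : Prop := ∃ R ⊆ range k, (1 - ε) * k ≤ (R.card : ℝ) ∧ ∀ i ∈ R, Q i

theorem iter (a : ℕ) (δ x : ℤ) (t : ℕ) : (S a δ)^[t] (x + δ) = (a : ℤ) ^ t * x + δ := by
  induction t with
  | zero => simp
  | succ t ih =>
    rw [Function.iterate_succ_apply', ih]
    unfold S
    rw [pow_succ]
    ring

open Classical in
/-- **Many chains of both kinds at once.** -/
theorem result (a : ℕ) (ha : 2 ≤ a) (q : ℕ) (hq : 1 ≤ q) (A : ℕ → ℕ) (hA : ∀ e, ¬ a ^ q ∣ A e)
    (δ : ℕ → ℤ) (hδ : ∀ e, δ e = 1 ∨ δ e = -1) (τ : ℕ → ℕ) (hτ : Function.Injective τ)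
    (W : ℕ → Finset ℕ) (hW : ∀ t, (W t).Nonempty) (η : ℝ) (hη : 0 < η) :
    ∃ 𝒮 : Set ℕ, (∃ᶠ t in atTop, (5 / 18 - η) * ((W t).card : ℝ) ≤ ((𝒮 ∩ (W t : Set ℕ)).ncard : ℝ)) ∧
      ∀ I : Finset ℕ, (I : Set ℕ) ⊆ 𝒮 → ∀ (ε : ℝ), 0 < ε → ε < 1 → ∀ (k m : ℕ → ℕ), (∀ j, 1 ≤ k j) →
      (∀ j, 1 ≤ m j) →
      ∃ C : ℕ → ℕ, ∀ (v : ℕ → ℕ → ℕ) (μ : ℕ → ℕ → ℝ) (T : ℕ → ℕ), (∀ t j, 0 ≤ μ t j) →
        (∀ t, ∑ j ∈ range (T t), μ t j = 1) →
        ∃ (E : ℕ → Set ℕ) (J : ℕ → ℕ), StrictMono J ∧
          (∃ᶠ t in atTop, 1 - ε ≤ ∑ j ∈ (range (T t)).filter (fun j => Most ε (k j) (fun i =>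
            ∀ e ∈ I, m j ≤ (E e ∩ Set.Icc (v j i) (v j i + C j)).ncard)), μ t j) ∧
          ∀ (n c : ℕ) (i : Fin n → ℕ), StrictMono i → (∀ u, n ≤ i u ∧ c ≤ i u) →
            AllGood a q A δ {f : Fin n → ℕ × ℕ | ∃ (e s : Fin n → ℕ),
              (∀ u, e u ∈ I ∧ s u ∈ E (e u) ∧ s u ≤ c) ∧
              ∀ u, f u = (e u, q * (τ (J (i u)) + s u))} := by
  obtain ⟨𝒮, h𝒮, hmain⟩ := Pool.Agent.U289.NY.mult a ha q hq A hA δ hδ τ hτ W hW η hη
  refine ⟨𝒮, h𝒮, fun I hI ε hε hε1 k m hk hm => ?_⟩
  obtain ⟨C0, hC0⟩ := hmain I (fun e he => hI he) ε hε hε1 k m hk hm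
  refine ⟨fun j => (C0 j).sup id, fun v μ T hμ hμ1 => ?_⟩
  obtain ⟨E, J, hJ, h1, h2⟩ := hC0 v μ T hμ hμ1
  refine ⟨E, J, hJ, h1.mono fun t ht => ht.trans ?_, fun n c i hi hnc l B' => ?_⟩
  · rw [← Pool.Agent.U289.NX.sum_ind (T t) (μ t) (fun j => Most ε (k j) (fun i =>
      ∀ e ∈ I, m j ≤ (E e ∩ Set.Icc (v j i) (v j i + (C0 j).sup id)).ncard))]
    refine sum_le_sum fun j _ => mul_le_mul_of_nonneg_left (Pool.Agent.U289.NX.ind_mono ?_) (hμ t j)
    rintro ⟨R, hR, hRk, hRi⟩
    refine ⟨R, hR, hRk, fun i hi e he => ?_⟩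
    obtain ⟨E', hE', hEm, hES⟩ := hRi i hi e he
    rw [← hEm]
    have h3 : ((E'.image (fun c => v j i + c) : Finset ℕ) : Set ℕ) ⊆
        E e ∩ Set.Icc (v j i) (v j i + (C0 j).sup id) := by
      intro y hy
      obtain ⟨c, hc, rfl⟩ := mem_image.1 (mem_coe.1 hy)
      have h4 : c ≤ (C0 j).sup id := Finset.le_sup (f := id) (hE' hc)
      exact ⟨hES c hc, Nat.le_add_right _ _, Nat.add_le_add_left h4 _⟩
    have h4 := Set.ncard_le_ncard h3 ((Set.finite_Icc _ _).subset Set.inter_subset_right)
    rw [Set.ncard_coe_finset, card_image_of_injective _ (add_right_injective _)] at h4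
    exact h4
  · obtain ⟨C', hC'⟩ := h2 (range (c + 1)) n i hi
      (fun u => ⟨(hnc u).1, range_mono (by have := (hnc u).2; omega)⟩) l
        (((Icc 1 B') ×ˢ ({1, -1} : Finset ℤ)).image (fun z : ℕ × ℤ => ((z.1 : ℤ), z.2)) |>.filter
          (fun g => g ∈ Pool.Agent.U289.NY.Oth a q A δ))
        (fun g hg => (mem_filter.1 hg).2)
    refine ⟨C', hC'.mono fun N hN f hf J' => ?_⟩
    obtain ⟨e, s, hes, hf⟩ := hf
    obtain ⟨d, hd1, hd2, hd3⟩ := hN _ ⟨e, s, fun u => ⟨(hes u).1, mem_range.2 (by have := (hes u).2.2; omega),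
      (hes u).2.1⟩, fun u => rfl⟩ J'
    refine ⟨d, hd1, hd2, hd3.trans ?_⟩
    rw [Nat.cast_le]
    unfold Pool.Agent.U289.NX.startsE count
    apply card_le_card
    intro n' hn'
    rw [mem_filter] at hn' ⊢
    refine ⟨hn'.1, fun i' hi' => ?_⟩
    obtain ⟨h3, h4⟩ := hn'.2 i' hi'
    refine ⟨fun u => ?_, fun y ε' hy1 hyB hε' hne => ?_⟩
    · have h5 := h3 u
      simp only [Pool.Agent.U289.NX.comp, mul_zero, zero_add] at h5
      rw [hf u]
      simp only
      rw [iter]
      have e1 : (a : ℤ) ^ (q * (τ (J (i u)) + s u)) * ((A (e u) : ℤ) * ((n' + i' * d : ℕ) : ℤ)) + δ (e u) =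
          (a : ℤ) ^ (q * τ (J (i u))) * (A (e u) : ℤ) * (a : ℤ) ^ (q * s u) * ((n' + i' * d : ℕ) : ℤ) + δ (e u) := by
        rw [mul_add, pow_add]
        ring
      rw [e1]
      exact h5
    · refine h4 ((y : ℤ), ε') (mem_filter.2 ⟨mem_image.2 ⟨(y, ε'), mk_mem_product (mem_Icc.2 ⟨hy1, hyB⟩) ?_, rfl⟩,
        y, ε', hy1, hε', hne, rfl⟩)
      rcases hε' with h | h <;> rw [h] <;> simp

end Pool.Agent.Results.MP_c183ae_nt.ManyStarts
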