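import Mathlib
import Pool.Agent.U289.NX.Mul

/-!
# Free sets of coefficients which contain bounded multiples of almost all members of every array

The question is about simultaneous primes `r_1 q + 1, …, r_ℓ q + 1`. Let `y_0, y_1, …` be any distinct positive
integers, `0 < ε < 1`, and let `k_j`, `m_j ≥ 1` be any integers. There are numbers `C_0, C_1, …` such that for ALL
positive integers `r_{j,i}`, `i < k_j`, and ALL finitely supported probability measures `μ_0, μ_1, …` on the natural
numbers there are a set `E` of positive integers and `J_0 < J_1 < …` with the following two properties.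

(1) For infinitely many `t` the set of the `j`, for which at least `(1 - ε) k_j` of the `r_{j,i}` have at least `m_j`
multiples `f r_{j,i}`, `1 ≤ f ≤ C_j`, in `E`, has `μ_t`-measure at least `1 - ε`.

(2) The elements of `E` can be combined freely: for all `k`, `c` and `i_1 < ⋯ < i_k` with `k, c ≤ i_1`, for every
length `l` and every `B` there are `C` and arbitrarily large `N`, the same for ALL choices of `s_1, …, s_k ≤ c`
in `E` (equal or not) and all `J ⊆ {1, …, k}`, such that for some `1 ≤ d ≤ (log N) ^ C` there are at least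
`N / (log N) ^ C` integers `n ≤ N` with: for each `q = n, n + d, …, n + (l - 1) d`, among the `k` numbers
`y_{J_{i_u}} s_u q + 1` exactly those with `u ∈ J` are prime, and none of the numbers `u q - 1`, `1 ≤ u ≤ B`, is prime.

So (all `u` in `J`) for all the `k`-tuples of coefficients `y_{J_{i_u}} s_u` obtained in this way, `k` arbitrary, all
the `k` numbers are prime for many `q`, together with no prime `u q - 1`, `u ≤ B`.

The starting files contain `MP_d018b2_nt.BoundedFactors`: for every `ℓ` there is `C` such that any `r_1, …, r_ℓ`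
have multiples `f_j r_j`, `f_j ≤ C`, for which all `f_j r_j q + 1` are prime for many `q` (one `ℓ`-tuple; not the
other patterns, progressions, or combinations; `C` depends only on `ℓ`, which is better); one exact pattern with
clusters near most members of every array for translations and for positions (`MP_3ec731_nt.MostRowsOfEveryArray`,
`MP_c77da8_nt.MostRowsOfPositions`; there one pattern, here free combinations). The sibling theorem for times in
orbits is `MP_77cbc6_nt.FreeTimes` (same engine, other semigroup).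

Proof. Fix an ultrafilter on the indices of the `y_j`. A set of positive integers is free if for every word in its
elements the iterated limit of the statement (2) is true. Dilations preserve free sets (substitute `c n` for `n`;
the scales may be multiplied by constants). The coloured Maynard-Tao theorem with the constant `18/5`, all
patterns, forced composite values and narrow progressions (`Pool.Agent.Y827.HN.patR`, starting files) gives, for
every weight on finitely many positive integers, a free set with `5/18` of the weight. If the theorem with one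
point and proportion `ρ < 1` were false for all `(C_j)`, configurations placed inside each other (the idea is that of
the starting library `Pool.Agent.N790.BP.Conf`; proved here for semigroups of substitutions) would give the
proportion `ρ ^ n < 5/18`. Infinitely many measures: Pták's lemma on convex means
(`Pool.Agent.Helper639.Tk.ptak`, starting files) and limits of free sets.
-/

set_option autoImplicit false

namespace Pool.Agent.Results.MP_d018b2_nt.FreeMultiples

open Filter Finset

/-- among the numbers `a_u q + 1` exactly those with `u ∈ J` are prime, and no `v q - 1`, `1 ≤ v ≤ B`, is prime -/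
def Pattern (B : ℕ) {k : ℕ} (a : Fin k → ℕ) (J : Finset (Fin k)) (q : ℕ) : Prop :=
  (∀ u : Fin k, (a u * q + 1).Prime ↔ u ∈ J) ∧ ∀ v : ℕ, 1 ≤ v → v ≤ B → ¬ (v * q - 1).Prime

open Classical in
/-- the number of the `1 ≤ n ≤ N` such that all of `n, n + d, …, n + (l - 1) d` have the pattern -/
noncomputable def count (B : ℕ) {k : ℕ} (a : Fin k → ℕ) (J : Finset (Fin k)) (l d N : ℕ) : ℕ :=
  ((Icc 1 N).filter (fun n : ℕ => ∀ i < l, Pattern B a J (n + i * d))).card

/-- all patterns occur, at arbitrarily large common scales `N`, for all the vectors of coefficients in `𝓐` -/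
def AllGood {k : ℕ} (𝓐 : Set (Fin k → ℕ)) : Prop :=
  ∀ l B : ℕ, ∃ C : ℕ, ∃ᶠ N : ℕ in atTop, ∀ a ∈ 𝓐, ∀ J : Finset (Fin k),
    ∃ d : ℕ, 1 ≤ d ∧ (d : ℝ) ≤ (Real.log N) ^ C ∧ (N : ℝ) / (Real.log N) ^ C ≤ (count B a J l d N : ℝ)

/-- the property `Q` holds for at least `(1 - ε) k` of the numbers `i < k` -/
def Most (ε : ℝ) (k : ℕ) (Q : ℕ → Prop) : Prop := ∃ R ⊆ range k, (1 - ε) * k ≤ (R.card : ℝ) ∧ ∀ i ∈ R, Q i

open Classical in
/-- **Free sets of coefficients.** -/
theorem result (y : ℕ → ℕ) (hy0 : ∀ j, 1 ≤ y j) (hy : Function.Injective y)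
    (ε : ℝ) (hε : 0 < ε) (hε1 : ε < 1) (k m : ℕ → ℕ) (hk : ∀ j, 1 ≤ k j) (hm : ∀ j, 1 ≤ m j) :
    ∃ C : ℕ → ℕ, ∀ (r : ℕ → ℕ → ℕ) (_ : ∀ j i, 1 ≤ r j i) (μ : ℕ → ℕ → ℝ) (T : ℕ → ℕ),
      (∀ t j, 0 ≤ μ t j) → (∀ t, ∑ j ∈ range (T t), μ t j = 1) →
      ∃ (E : Set ℕ) (J : ℕ → ℕ), (∀ s ∈ E, 1 ≤ s) ∧ StrictMono J ∧
        (∃ᶠ t in atTop, 1 - ε ≤ ∑ j ∈ (range (T t)).filter (fun j => Most ε (k j) (fun i =>
          m j ≤ {f : ℕ | 1 ≤ f ∧ f ≤ C j ∧ r j i * f ∈ E}.ncard)), μ t j) ∧
        ∀ (n c : ℕ) (i : Fin n → ℕ), StrictMono i → (∀ t, n ≤ i t ∧ c ≤ i t) →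
          AllGood {h : Fin n → ℕ | ∃ s : Fin n → ℕ, (∀ t, s t ∈ E ∧ s t ≤ c) ∧
            ∀ t, h t = y (J (i t)) * s t} := by
  obtain ⟨C, hC⟩ := Pool.Agent.U289.NX.mul y hy0 hy ε hε hε1 k m hk hm
  refine ⟨C, fun r hr μ T hμ hμ1 => ?_⟩
  obtain ⟨E, J, hE, hJ, h1, h2⟩ := hC r hr μ T hμ hμ1
  refine ⟨E, J, hE, hJ, h1.mono fun t ht => ht.trans (le_of_eq ?_), fun n c i hi hnc l B => ?_⟩
  · exact Pool.Agent.U289.NX.sum_ind (T t) (μ t) (fun j => Most ε (k j) (fun i =>
      m j ≤ {f : ℕ | 1 ≤ f ∧ f ≤ C j ∧ r j i * f ∈ E}.ncard))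
  · obtain ⟨C', hC'⟩ := h2 n c i hi hnc l B
    refine ⟨C', hC'.mono fun N hN t ht J' => ?_⟩
    obtain ⟨d, hd1, hd2, hd3⟩ := hN t ht J'
    refine ⟨d, hd1, hd2, hd3.trans (le_of_eq ?_)⟩
    unfold Pool.Agent.U289.NX.startsM count
    exact congrArg Nat.cast (congrArg Finset.card (filter_congr fun x _ => Iff.rfl))

end Pool.Agent.Results.MP_d018b2_nt.FreeMultiples
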